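import Pool.Agent.Y7.LN.Stm3

/-!
# Project LN, from the rate to the Lebesgue spaces (job LN2-LPQ)
-/

open Set Filter Topology MeasureTheory Metric

set_option autoImplicit false

namespace Pool.Agent.Y406.LN

open Pool.Agent.Y5 (E3)
open Pool.Agent.Y303.SK (ipr)
open Pool.Agent.Y7.LN (S_LPQ)

lemma lint_two {v : E3 → E3} (hv : MemLp v 2 volume) (h : ipr v v ≤ 1) :
    ∫⁻ x, ‖v x‖ₑ ^ (2 : ℝ) ≤ 1 := by
  have hi : Integrable (fun x => ‖v x‖ ^ 2) volume := hv.norm.integrable_sq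
  have h1 : ENNReal.ofReal (∫ x, ‖v x‖ ^ 2) = ∫⁻ x, ENNReal.ofReal (‖v x‖ ^ 2) :=
    ofReal_integral_eq_lintegral_ofReal hi (Eventually.of_forall fun x => by positivity)
  have h2 : ∫ x, ‖v x‖ ^ 2 = ipr v v := by
    unfold ipr
    refine integral_congr_ae (Eventually.of_forall fun x => ?_)
    simp only
    rw [real_inner_self_eq_norm_sq]
  have h3 : ∫⁻ x, ‖v x‖ₑ ^ (2 : ℝ) = ∫⁻ x, ENNReal.ofReal (‖v x‖ ^ 2) := by
    refine lintegral_congr fun x => ?_
    rw [ENNReal.rpow_two, ENNReal.ofReal_pow (norm_nonneg _), ofReal_norm]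
  rw [h3, ← h1, h2]
  exact ENNReal.ofReal_le_one.2 h

/-- integrability of the power of the distance -/
lemma int_abs {T Θ a : ℝ} (hT : 0 < T) (hΘ : T < Θ) (ha : a < 1) (C : ℝ) :
    ∫⁻ t in Ioo 0 Θ, ENNReal.ofReal (C * |t - T| ^ (-a)) < ⊤ := by
  have i1 : IntegrableOn (fun t : ℝ => C * |t - T| ^ (-a)) (Ioc T Θ) volume := by
    have h1 : IntervalIntegrable (fun x : ℝ => x ^ (-a)) volume 0 (Θ - T) :=
      intervalIntegral.intervalIntegrable_rpow' (by linarith)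
    have h2 := h1.comp_sub_right T
    rw [zero_add, sub_add_cancel] at h2
    have h3 := (intervalIntegrable_iff_integrableOn_Ioc_of_le hΘ.le).1 h2
    have h4 : IntegrableOn (fun t : ℝ => |t - T| ^ (-a)) (Ioc T Θ) volume := by
      refine h3.congr_fun (fun x hx => ?_) measurableSet_Ioc
      simp only
      rw [abs_of_nonneg (by linarith [hx.1])]
    exact h4.const_mul C
  have i2 : IntegrableOn (fun t : ℝ => C * |t - T| ^ (-a)) (Ioc 0 T) volume := by
    have h1 : IntervalIntegrable (fun x : ℝ => x ^ (-a)) volume 0 T :=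
      intervalIntegral.intervalIntegrable_rpow' (by linarith)
    have h2 := h1.comp_sub_left T
    rw [sub_zero, sub_self] at h2
    have h3 := (intervalIntegrable_iff_integrableOn_Ioc_of_le hT.le).1 h2.symm
    have h4 : IntegrableOn (fun t : ℝ => |t - T| ^ (-a)) (Ioc 0 T) volume := by
      refine h3.congr_fun (fun x hx => ?_) measurableSet_Ioc
      simp only
      rw [abs_of_nonpos (by linarith [hx.2])]
      congr 1
      ring
    exact h4.const_mul C
  have hsub : Ioo 0 Θ ⊆ Ioc 0 T ∪ Ioc T Θ := by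
    intro t ht
    by_cases h : t ≤ T
    · exact Or.inl ⟨ht.1, h⟩
    · exact Or.inr ⟨not_le.1 h, ht.2.le⟩
  refine (lintegral_mono_set hsub).trans_lt ?_
  refine (lintegral_union_le _ _ _).trans_lt ?_
  exact ENNReal.add_lt_top.2 ⟨i2.lintegral_lt_top, i1.lintegral_lt_top⟩

/-- **From the rate to the Lebesgue spaces.** -/
theorem t_LPQ : S_LPQ := by
  intro T Θ u hT hΘ hu hr p q hp hq hpq
  have hp0 : 0 < p := by linarith
  have hq0 : 0 < q := by linarith
  obtain ⟨β, hβ⟩ : ∃ β : ℝ, β = (q - 2) * (p / q) := ⟨_, rfl⟩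
  have hβ0 : 0 ≤ β := by
    rw [hβ]
    have : 0 ≤ q - 2 := by linarith
    positivity
  have hβ1 : 3 / 5 * β < 1 := by
    have h1 : 5 / (2 * p) + 3 / q = (5 / 2 + 3 * (p / q)) / p := by
      field_simp
    rw [h1, lt_div_iff₀ hp0] at hpq
    have h2 : β = p - 2 * (p / q) := by
      rw [hβ]
      field_simp
    rw [h2]
    linarith
  obtain ⟨ε, hε, hεa⟩ : ∃ ε : ℝ, 0 < ε ∧ (3 / 5 + ε) * β < 1 := by
    refine ⟨(1 - 3 / 5 * β) / (2 * (β + 1)), by
      apply div_pos (by linarith) (by linarith), ?_⟩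
    have h1 : (1 - 3 / 5 * β) / (2 * (β + 1)) * β ≤ (1 - 3 / 5 * β) / 2 := by
      rw [div_mul_eq_mul_div, div_le_div_iff₀ (by linarith) (by norm_num)]
      nlinarith
    nlinarith
  obtain ⟨M, hM⟩ := hr ε hε
  have key : ∀ t ∈ Ioo 0 Θ, t ≠ T → (∫⁻ x, ‖u t x‖ₑ ^ q) ^ (p / q) ≤
      ENNReal.ofReal ((max M 0) ^ β * |t - T| ^ (-((3 / 5 + ε) * β))) := by
    intro t ht htT
    have ht' : t ∈ Icc 0 Θ := ⟨ht.1.le, ht.2.le⟩
    obtain ⟨m, hm⟩ : ∃ m : ℝ, m = max M 0 * |t - T| ^ (-(3 / 5 + ε)) := ⟨_, rfl⟩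
    have hpos : 0 ≤ |t - T| ^ (-(3 / 5 + ε)) := Real.rpow_nonneg (abs_nonneg _) _
    have hm0 : 0 ≤ m := by
      rw [hm]
      exact mul_nonneg (le_max_right _ _) hpos
    have hum : ∀ x, ‖u t x‖ ≤ m := by
      intro x
      refine (hM t ht' htT x).trans ?_
      rw [hm]
      exact mul_le_mul_of_nonneg_right (le_max_left _ _) hpos
    have h1 : ∫⁻ x, ‖u t x‖ₑ ^ q ≤ ENNReal.ofReal m ^ (q - 2) := by
      calc ∫⁻ x, ‖u t x‖ₑ ^ q ≤ ∫⁻ x, ENNReal.ofReal m ^ (q - 2) * ‖u t x‖ₑ ^ (2 : ℝ) := by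
            refine lintegral_mono fun x => ?_
            have e : q = (q - 2) + 2 := by ring
            conv_lhs => rw [e]
            rw [ENNReal.rpow_add_of_nonneg _ _ (by linarith) (by norm_num)]
            refine mul_le_mul_left ?_ _
            refine ENNReal.rpow_le_rpow ?_ (by linarith)
            rw [← ofReal_norm]
            exact ENNReal.ofReal_le_ofReal (hum x)
        _ = ENNReal.ofReal m ^ (q - 2) * ∫⁻ x, ‖u t x‖ₑ ^ (2 : ℝ) := by
            refine lintegral_const_mul' _ _ ?_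
            exact ENNReal.rpow_ne_top_of_nonneg (by linarith) ENNReal.ofReal_ne_top
        _ ≤ ENNReal.ofReal m ^ (q - 2) * 1 := by
            refine mul_le_mul_right ?_ _
            exact lint_two (hu t ht' htT).1 (hu t ht' htT).2
        _ = ENNReal.ofReal m ^ (q - 2) := mul_one _
    calc (∫⁻ x, ‖u t x‖ₑ ^ q) ^ (p / q) ≤ (ENNReal.ofReal m ^ (q - 2)) ^ (p / q) :=
          ENNReal.rpow_le_rpow h1 (by positivity)
      _ = ENNReal.ofReal m ^ β := by rw [← ENNReal.rpow_mul, hβ]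
      _ = ENNReal.ofReal (m ^ β) := ENNReal.ofReal_rpow_of_nonneg hm0 hβ0
      _ = ENNReal.ofReal ((max M 0) ^ β * |t - T| ^ (-((3 / 5 + ε) * β))) := by
          rw [hm, Real.mul_rpow (le_max_right _ _) hpos, ← Real.rpow_mul (abs_nonneg _)]
          congr 3
          ring
  have hae : ∀ᵐ t ∂(volume.restrict (Ioo 0 Θ)), (∫⁻ x, ‖u t x‖ₑ ^ q) ^ (p / q) ≤
      ENNReal.ofReal ((max M 0) ^ β * |t - T| ^ (-((3 / 5 + ε) * β))) := by
    have h1 : ∀ᵐ t ∂(volume.restrict (Ioo 0 Θ)), t ∈ Ioo 0 Θ :=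
      ae_restrict_mem measurableSet_Ioo
    have h2 : ∀ᵐ t ∂(volume.restrict (Ioo 0 Θ)), t ≠ T := by
      refine ae_restrict_of_ae ?_
      exact Measure.ae_ne volume T
    filter_upwards [h1, h2] with t h3 h4
    exact key t h3 h4
  exact (lintegral_mono_ae hae).trans_lt (int_abs hT hΘ hεa _)

end Pool.Agent.Y406.LN
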